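import Pool.Agent.Lib_helper47.MOD.Defs
import Pool.Agent.Lib_helper44.G34.Ftc

/-!
# The layer function `tau` of a pair and its slope `eta`: tangents, monotonicity, derivative
-/

open scoped BigOperators ComplexOrder Kronecker MatrixOrder Topology
open MeasureTheory Set Matrix Filter

namespace Pool.Agent.RC

variable {ι : Type} [Fintype ι] [DecidableEq ι]

/-! ## scalar facts -/

theorem gp_nonneg (p x : ℝ) : 0 ≤ gp p x := Real.rpow_nonneg (le_max_right _ _) _

theorem continuous_gp {p : ℝ} (hp : 1 ≤ p) : Continuous (gp p) := by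
  unfold gp
  exact (continuous_id.max continuous_const).rpow_const fun _ => Or.inr (by linarith)

theorem pp_tangent {p : ℝ} (hp : 1 < p) (x y : ℝ) :
    INE.pp p y + p * gp p y * (x - y) ≤ INE.pp p x := by
  unfold INE.pp gp
  rcases le_or_gt y 0 with hy | hy
  · rw [max_eq_right hy, Real.zero_rpow (by linarith), Real.zero_rpow (by linarith)]
    have := Real.rpow_nonneg (le_max_right x 0) p
    simpa using this
  · rw [max_eq_left hy.le]
    have h1 := Pool.Agent.Lib_helper44.G34.rpow_tangent (p := p) (x := max x 0) (y := y) hp.le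
      (le_max_right _ _) hy.le
    have h2 : p * y ^ (p - 1) * (x - y) ≤ p * y ^ (p - 1) * (max x 0 - y) := by
      apply mul_le_mul_of_nonneg_left _ (mul_nonneg (by linarith) (Real.rpow_nonneg hy.le _))
      linarith [le_max_left x 0]
    linarith

/-! ## matrix facts -/

theorem trF_eq_tf44 (f : ℝ → ℝ) {M : Matrix ι ι ℂ} (h : M.IsHermitian) :
    trF f M = Pool.Agent.Lib_helper44.G34.tf f M := by
  rw [Pool.Agent.Lib_helper44.G34.tf_eq_sum f h]
  unfold trF
  rw [dif_pos h]

theorem cfc_smul_gp (p : ℝ) {Y : Matrix ι ι ℂ} (hY : Y.IsHermitian) :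
    cfc (fun x : ℝ => p * gp p x) Y = (p : ℂ) • cfc (gp p) Y := by
  rw [Pool.Agent.Lib_helper44.G34.cfc_spec hY, Pool.Agent.Lib_helper44.G34.cfc_spec hY,
    ← Matrix.smul_mul, ← Matrix.mul_smul, ← Matrix.diagonal_smul]
  congr 3
  ext i
  simp

/-- Klein's inequality for `x_+^p` -/
theorem klein_pp {p : ℝ} (hp : 1 < p) {X Y : Matrix ι ι ℂ} (hX : X.IsHermitian)
    (hY : Y.IsHermitian) :
    trF (INE.pp p) Y + p * ((cfc (gp p) Y * (X - Y)).trace).re ≤ trF (INE.pp p) X := by
  have h := Pool.Agent.Lib_helper44.G34.klein (f := INE.pp p) (g := fun x => p * gp p x) hX hY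
    (fun i j => pp_tangent hp _ _)
  rw [cfc_smul_gp p hY, Matrix.smul_mul, Matrix.trace_smul, smul_eq_mul,
    Complex.re_ofReal_mul] at h
  rw [trF_eq_tf44 _ hX, trF_eq_tf44 _ hY]
  exact h

theorem cfc_psd {f : ℝ → ℝ} (hf : ∀ x, 0 ≤ f x) (M : Matrix ι ι ℂ) :
    (cfc f M).PosSemidef := by
  rw [← Matrix.nonneg_iff_posSemidef]
  exact cfc_nonneg fun x _ => hf x

theorem re_trace_mul_nonneg {A B : Matrix ι ι ℂ} (hA : A.PosSemidef)
    (hB : B.PosSemidef) : 0 ≤ ((A * B).trace).re := by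
  obtain ⟨C, hC⟩ := CStarAlgebra.nonneg_iff_eq_star_mul_self.mp hA.nonneg
  have hC' : A = Cᴴ * C := hC
  have e : (A * B).trace = (C * B * Cᴴ).trace := by
    rw [hC']
    calc (Cᴴ * C * B).trace = (Cᴴ * (C * B)).trace := by congr 1; noncomm_ring
      _ = ((C * B) * Cᴴ).trace := Matrix.trace_mul_comm _ _
  rw [e]
  have h1 : (C * B * Cᴴ).PosSemidef := hB.mul_mul_conjTranspose_same C
  have h2 := h1.trace_nonneg
  exact (Complex.le_def.1 h2).1

theorem herm_real_smul {M : Matrix ι ι ℂ} (h : M.IsHermitian) (z : ℝ) :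
    ((z : ℂ) • M).IsHermitian := by
  unfold Matrix.IsHermitian
  rw [Matrix.conjTranspose_smul, h.eq, Complex.star_def, Complex.conj_ofReal]

theorem IsPair.hermA {A D : Matrix ι ι ℂ} (h : IsPair A D) : A.IsHermitian := h.pos.1

theorem IsPair.hermD {A D : Matrix ι ι ℂ} (h : IsPair A D) : D.IsHermitian := by
  have : D = (A + D) - A := by abel
  rw [this]
  exact h.add.1.sub h.pos.1

theorem IsPair.herm1 {A D : Matrix ι ι ℂ} (h : IsPair A D) (z : ℝ) :
    (D - (z : ℂ) • (A - D)).IsHermitian := h.hermD.sub (herm_real_smul h.sub.1 z)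

theorem IsPair.herm2 {A D : Matrix ι ι ℂ} (h : IsPair A D) (z : ℝ) :
    (-D - (z : ℂ) • (A + D)).IsHermitian := h.hermD.neg.sub (herm_real_smul h.add.1 z)

/-! ## general real facts: functions with a tangent slope -/

section real

variable {f g : ℝ → ℝ}

theorem tangent_antitone (h : ∀ z z', f z - (z' - z) * g z ≤ f z') : Antitone g := by
  intro x y hxy
  rcases hxy.eq_or_lt with rfl | hlt
  · exact le_rfl
  · have h1 := h x y
    have h2 := h y x
    have h3 : 0 ≤ (y - x) * (g x - g y) := by linarith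
    have := nonneg_of_mul_nonneg_right h3 (sub_pos.2 hlt)
    linarith

theorem tangent_convex (h : ∀ z z', f z - (z' - z) * g z ≤ f z') : ConvexOn ℝ univ f := by
  refine ⟨convex_univ, ?_⟩
  intro x _ y _ a b ha hb hab
  simp only [smul_eq_mul]
  have h1 := mul_le_mul_of_nonneg_left (h (a * x + b * y) x) ha
  have h2 := mul_le_mul_of_nonneg_left (h (a * x + b * y) y) hb
  have e : a * (f (a * x + b * y) - (x - (a * x + b * y)) * g (a * x + b * y)) +
      b * (f (a * x + b * y) - (y - (a * x + b * y)) * g (a * x + b * y)) =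
      (a + b) * f (a * x + b * y) +
        ((a + b) * (a * x + b * y) - (a * x + b * y)) * g (a * x + b * y) := by ring
  rw [hab] at e
  linarith

theorem tangent_hasDerivAt (h : ∀ z z', f z - (z' - z) * g z ≤ f z') (hg : Continuous g)
    (z : ℝ) : HasDerivAt f (-(g z)) z := by
  rw [hasDerivAt_iff_isLittleO, Asymptotics.isLittleO_iff]
  intro c hc
  have h1 : ∀ᶠ y in 𝓝 z, |g y - g z| ≤ c := by
    have := (hg.tendsto z).eventually (Metric.closedBall_mem_nhds (g z) hc)
    filter_upwards [this] with y hy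
    rwa [← Real.dist_eq]
  filter_upwards [h1] with y hy
  rw [Real.norm_eq_abs, Real.norm_eq_abs, smul_eq_mul]
  have a1 := h z y
  have a2 := h y z
  have b1 : 0 ≤ f y - f z - (y - z) * -(g z) := by linarith
  have b2 : f y - f z - (y - z) * -(g z) ≤ (y - z) * (g z - g y) := by linarith
  rw [abs_of_nonneg b1]
  calc f y - f z - (y - z) * -(g z) ≤ (y - z) * (g z - g y) := b2
    _ ≤ |(y - z) * (g z - g y)| := le_abs_self _
    _ = |g y - g z| * |y - z| := by rw [abs_mul, abs_sub_comm (g z), mul_comm]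
    _ ≤ c * |y - z| := mul_le_mul_of_nonneg_right hy (abs_nonneg _)

end real

/-! ## the facts on `tau` and `eta` -/

theorem continuous_tau' {p : ℝ} (hp : 0 ≤ p) {A D : Matrix ι ι ℂ} (h : IsPair A D) :
    Continuous (tau p A D) := by
  unfold tau
  exact (INE.continuous_trF _ (INE.continuous_pp hp) _ (by fun_prop) h.herm1).add
    (INE.continuous_trF _ (INE.continuous_pp hp) _ (by fun_prop) h.herm2)

theorem tau_nonneg (p : ℝ) (A D : Matrix ι ι ℂ) (z : ℝ) : 0 ≤ tau p A D z := by
  unfold tau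
  exact add_nonneg (INE.trF_nonneg (INE.pp_nonneg p) _) (INE.trF_nonneg (INE.pp_nonneg p) _)

theorem eta_nonneg {p : ℝ} (hp : 0 ≤ p) {A D : Matrix ι ι ℂ} (h : IsPair A D) (z : ℝ) :
    0 ≤ eta p A D z := by
  unfold eta
  exact mul_nonneg hp (add_nonneg (re_trace_mul_nonneg (cfc_psd (gp_nonneg p) _) h.sub)
    (re_trace_mul_nonneg (cfc_psd (gp_nonneg p) _) h.add))

omit [DecidableEq ι] in
theorem re_trace_smul (x : ℝ) (M : Matrix ι ι ℂ) :
    (((x : ℂ) • M).trace).re = x * (M.trace).re := by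
  rw [Matrix.trace_smul, smul_eq_mul, Complex.re_ofReal_mul]

/-- the tangent inequality: `tau` is convex with slope `-eta` -/
theorem tau_tangent {p : ℝ} (hp : 1 < p) {A D : Matrix ι ι ℂ} (h : IsPair A D) (z z' : ℝ) :
    tau p A D z - (z' - z) * eta p A D z ≤ tau p A D z' := by
  have k1 := klein_pp hp (h.herm1 z') (h.herm1 z)
  have k2 := klein_pp hp (h.herm2 z') (h.herm2 z)
  have e1 : (D - (z' : ℂ) • (A - D)) - (D - (z : ℂ) • (A - D)) =
      ((-(z' - z) : ℝ) : ℂ) • (A - D) := by
    push_cast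
    rw [neg_smul, sub_smul]
    abel
  have e2 : (-D - (z' : ℂ) • (A + D)) - (-D - (z : ℂ) • (A + D)) =
      ((-(z' - z) : ℝ) : ℂ) • (A + D) := by
    push_cast
    rw [neg_smul, sub_smul]
    abel
  rw [e1, Matrix.mul_smul, re_trace_smul] at k1
  rw [e2, Matrix.mul_smul, re_trace_smul] at k2
  unfold tau eta
  nlinarith [k1, k2]

theorem eta_antitone {p : ℝ} (hp : 1 < p) {A D : Matrix ι ι ℂ} (h : IsPair A D) :
    Antitone (eta p A D) := tangent_antitone (tau_tangent hp h)

theorem tau_convex {p : ℝ} (hp : 1 < p) {A D : Matrix ι ι ℂ} (h : IsPair A D) :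
    ConvexOn ℝ univ (tau p A D) := tangent_convex (tau_tangent hp h)

theorem tau_antitone {p : ℝ} (hp : 1 < p) {A D : Matrix ι ι ℂ} (h : IsPair A D) :
    Antitone (tau p A D) := by
  intro x y hxy
  have h1 := tau_tangent hp h y x
  have h2 : 0 ≤ (y - x) * eta p A D y :=
    mul_nonneg (sub_nonneg.2 hxy) (eta_nonneg (by linarith) h y)
  linarith

theorem continuous_eta {p : ℝ} (hp : 1 ≤ p) {A D : Matrix ι ι ℂ} (h : IsPair A D) :
    Continuous (eta p A D) := by
  have c1 : Continuous fun z : ℝ => cfc (gp p) (D - (z : ℂ) • (A - D)) :=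
    Pool.Agent.Lib_helper44.G34.cont_cfc _ (continuous_gp hp) _ (by fun_prop) h.herm1
  have c2 : Continuous fun z : ℝ => cfc (gp p) (-D - (z : ℂ) • (A + D)) :=
    Pool.Agent.Lib_helper44.G34.cont_cfc _ (continuous_gp hp) _ (by fun_prop) h.herm2
  unfold eta
  exact continuous_const.mul
    ((Complex.continuous_re.comp (c1.matrix_mul continuous_const).matrix_trace).add
      (Complex.continuous_re.comp (c2.matrix_mul continuous_const).matrix_trace))

theorem hasDerivAt_tau {p : ℝ} (hp : 1 < p) {A D : Matrix ι ι ℂ} (h : IsPair A D) (z : ℝ) :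
    HasDerivAt (tau p A D) (-(eta p A D z)) z :=
  tangent_hasDerivAt (tau_tangent hp h) (continuous_eta hp.le h) z

theorem continuous_tau {p : ℝ} (hp : 1 < p) {A D : Matrix ι ι ℂ} (h : IsPair A D) :
    Continuous (tau p A D) :=
  continuous_iff_continuousAt.2 fun z => (hasDerivAt_tau hp h z).continuousAt

theorem tau_le_zero {p : ℝ} (hp : 1 < p) {A D : Matrix ι ι ℂ} (h : IsPair A D) {z : ℝ}
    (hz : 0 ≤ z) : tau p A D z ≤ tau p A D 0 := tau_antitone hp h hz

theorem mul_eta_le {p : ℝ} (hp : 1 < p) {A D : Matrix ι ι ℂ} (h : IsPair A D) (z : ℝ) :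
    z * eta p A D z ≤ tau p A D 0 - tau p A D z := by
  have := tau_tangent hp h z 0
  linarith

/-- `tau 0 = Tr |D|^p` -/
theorem tau_zero (p : ℝ) (A D : Matrix ι ι ℂ) :
    tau p A D 0 = trF (INE.pp p) D + trF (INE.pp p) (-D) := by
  unfold tau
  simp

theorem measurable_tau {p : ℝ} (hp : 0 ≤ p) {A D : Matrix ι ι ℂ} (h : IsPair A D) :
    Measurable (tau p A D) := (continuous_tau' hp h).measurable

theorem measurable_eta {p : ℝ} (hp : 1 ≤ p) {A D : Matrix ι ι ℂ} (h : IsPair A D) :
    Measurable (eta p A D) := (continuous_eta hp h).measurable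

/-- the supergradient form: `m - tau` is concave with supergradient `eta` -/
theorem superGrad {p : ℝ} (hp : 1 < p) {A D : Matrix ι ι ℂ} (h : IsPair A D) (m : ℝ) :
    ∀ z z' : ℝ, 0 ≤ z → 0 ≤ z' →
      (fun z => m - tau p A D z) z' ≤ (fun z => m - tau p A D z) z + eta p A D z * (z' - z) := by
  intro z z' _ _
  have := tau_tangent hp h z z'
  show m - tau p A D z' ≤ m - tau p A D z + eta p A D z * (z' - z)
  linarith

end Pool.Agent.RC
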